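import Mathlib

/-!
# The logarithmic integral `∫_0^1 log^{n+1}(1-x) log^n(1+x)/(1+x) dx`
-/

set_option autoImplicit false

open MeasureTheory Real Set Filter
open scoped Topology

namespace Pool.Agent.Results.MP_cd3f56_nt.LogIntegral

/-- `ζ(k)` as a series. -/
noncomputable def zt (k : ℕ) : ℝ := ∑' n : ℕ, 1 / ((n : ℝ) + 1) ^ k

/-- The algebra generated by `π²`, `log 2` and the odd zeta values. -/
noncomputable def zetaAlg : Subalgebra ℚ ℝ :=
  Algebra.adjoin ℚ ({π ^ 2, Real.log 2} ∪ {z : ℝ | ∃ k : ℕ, 3 ≤ k ∧ Odd k ∧ z = zt k})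

section Coeff

theorem hasFPS (p : ℕ → ℝ) (r : ℝ) (hr : 0 < r)
    (hp : ∀ x, 0 < x → x < r → Summable fun m => p m * x ^ m) :
    HasFPowerSeriesAt (fun x => ∑' m, p m * x ^ m) (FormalMultilinearSeries.ofScalars ℝ p) 0 := by
  rw [hasFPowerSeriesAt_iff]
  filter_upwards [Metric.ball_mem_nhds (0 : ℝ) hr] with z hz
  have hz' : |z| < r := by simpa [Real.dist_eq] using hz
  have hs : Summable fun m => p m * z ^ m := by
    rcases eq_or_ne z 0 with h | h
    · subst h
      refine summable_of_ne_finset_zero (s := {0}) ?_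
      intro b hb
      have : b ≠ 0 := by simpa using hb
      simp [this]
    · have := hp |z| (abs_pos.2 h) hz'
      rw [← summable_abs_iff] at this ⊢
      refine this.congr fun m => ?_
      simp [abs_mul, abs_pow]
  simp only [FormalMultilinearSeries.coeff_ofScalars, smul_eq_mul, zero_add]
  exact hs.hasSum.congr_fun fun m => mul_comm _ _

theorem iterDeriv (p : ℕ → ℝ) (r : ℝ) (hr : 0 < r)
    (hp : ∀ x, 0 < x → x < r → Summable fun m => p m * x ^ m) (m : ℕ) :
    iteratedDeriv m (fun x => ∑' m, p m * x ^ m) 0 = m.factorial * p m := by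
  have h := hasFPS p r hr hp
  have h2 := AnalyticAt.hasFPowerSeriesAt (h.analyticAt)
  have h3 := h.eq_formalMultilinearSeries h2
  have h4 := congrArg (fun q => q.coeff m) h3
  simp only [FormalMultilinearSeries.coeff_ofScalars] at h4
  rw [h4]
  field_simp

theorem coeff_mem (A : Subalgebra ℚ ℝ) (p c : ℕ → ℝ) (r : ℝ) (hr : 0 < r)
    (hp : ∀ x, 0 < x → x < r → Summable fun m => p m * x ^ m)
    (hc : ∀ x, 0 < x → x < r → Summable fun m => c m * x ^ m)
    (hE : ∀ x, 0 < x → x < r → ∑' m, p m * x ^ m = Real.exp (∑' m, c m * x ^ m))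
    (hcA : ∀ m, c m ∈ A) (hc0 : c 0 = 0) (m : ℕ) : p m ∈ A := by
  set P : ℝ → ℝ := fun x => ∑' m, p m * x ^ m with hP
  set G : ℝ → ℝ := fun x => ∑' m, c m * x ^ m with hG
  have aP : AnalyticAt ℝ P 0 := (hasFPS p r hr hp).analyticAt
  have aG : AnalyticAt ℝ G 0 := (hasFPS c r hr hc).analyticAt
  have aE : AnalyticAt ℝ (fun x => Real.exp (G x)) 0 := aG.rexp'
  have hev : ∀ᶠ x in 𝓝 (0 : ℝ), P x = Real.exp (G x) := by
    rw [← aP.frequently_eq_iff_eventually_eq aE]
    have : ∃ᶠ x in 𝓝[>] (0 : ℝ), P x = Real.exp (G x) := by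
      refine Filter.Eventually.frequently ?_
      filter_upwards [Ioo_mem_nhdsGT hr] with x hx
      exact hE x hx.1 hx.2
    exact this.filter_mono (nhdsWithin_mono _ (fun x hx => ne_of_gt hx))
  have hder : deriv P =ᶠ[𝓝 0] (deriv G) * P := by
    have h1 : P =ᶠ[𝓝 0] fun x => Real.exp (G x) := hev
    have h2 := h1.deriv
    have h3 : ∀ᶠ x in 𝓝 (0 : ℝ), AnalyticAt ℝ G x := aG.eventually_analyticAt
    filter_upwards [h1, h2, h3] with x hx1 hx2 hx3
    rw [hx2, Pi.mul_apply, hx1]
    rw [deriv_exp hx3.differentiableAt]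
    ring
  have key : ∀ m, iteratedDeriv m P 0 ∈ A := by
    intro m
    induction m using Nat.strong_induction_on with
    | _ m ih =>
      rcases m with _ | m
      · have h0 : P 0 = Real.exp (G 0) := hev.self_of_nhds
        have h1 : G 0 = 0 := by
          have := iterDeriv c r hr hc 0
          simp only [iteratedDeriv_zero, Nat.factorial_zero, Nat.cast_one, one_mul, hc0] at this
          exact this
        rw [iteratedDeriv_zero, h0, h1, Real.exp_zero]
        exact A.one_mem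
      · rw [iteratedDeriv_succ', hder.iteratedDeriv_eq m]
        rw [iteratedDeriv_mul]
        · refine Subalgebra.sum_mem _ fun i hi => ?_
          refine Subalgebra.mul_mem _ (Subalgebra.mul_mem _ ?_ ?_) ?_
          · exact Subalgebra.natCast_mem _ _
          · rw [← iteratedDeriv_succ', iterDeriv c r hr hc]
            exact Subalgebra.mul_mem _ (Subalgebra.natCast_mem _ _) (hcA _)
          · exact ih _ (by omega)
        · exact aG.deriv.contDiffAt
        · exact aP.contDiffAt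
  have h1 := key m
  rw [iterDeriv p r hr hp] at h1
  have h2 : p m = ((m.factorial : ℚ)⁻¹) • ((m.factorial : ℝ) * p m) := by
    rw [Rat.smul_def]
    push_cast
    field_simp
  rw [h2]
  exact A.smul_mem h1 _

end Coeff

section Gam

theorem lgs (s : ℝ) (hs : 0 < s) (n : ℕ) :
    BohrMollerup.logGammaSeq s n =
      s * Real.log n - Real.log s - ∑ m ∈ Finset.range n, Real.log (1 + s / (m + 1)) := by
  rw [BohrMollerup.logGammaSeq, Finset.sum_range_succ']
  have h1 : ∀ m ∈ Finset.range n, Real.log (s + ((m + 1 : ℕ) : ℝ)) =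
      Real.log ((m + 1 : ℕ) : ℝ) + Real.log (1 + s / (m + 1)) := by
    intro m _
    have hm : (0 : ℝ) < ((m + 1 : ℕ) : ℝ) := by positivity
    rw [← Real.log_mul hm.ne' (by positivity)]
    congr 1
    push_cast
    field_simp
    ring
  rw [Finset.sum_congr rfl h1, Finset.sum_add_distrib]
  have h2 : ∑ m ∈ Finset.range n, Real.log ((m + 1 : ℕ) : ℝ) = Real.log (n.factorial : ℝ) := by
    rw [← Finset.prod_range_add_one_eq_factorial]
    push_cast
    rw [Real.log_prod]
    intro i _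
    positivity
  rw [h2]
  simp
  ring

theorem log_F (s t : ℝ) (hs : 0 < s) (ht : 0 < t) :
    Tendsto (fun n : ℕ => ∑ m ∈ Finset.range n, (Real.log (1 + (s + t) / (m + 1))
      - Real.log (1 + s / (m + 1)) - Real.log (1 + t / (m + 1)))) atTop
      (𝓝 (Real.log (Real.Gamma (1 + s) * Real.Gamma (1 + t) / Real.Gamma (1 + s + t)))) := by
  have h1 := BohrMollerup.tendsto_log_gamma hs
  have h2 := BohrMollerup.tendsto_log_gamma ht
  have h3 := BohrMollerup.tendsto_log_gamma (add_pos hs ht)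
  have h4 := ((h1.add h2).sub h3).add_const (Real.log s + Real.log t - Real.log (s + t))
  have e : Real.log (Real.Gamma (1 + s) * Real.Gamma (1 + t) / Real.Gamma (1 + s + t)) =
      Real.log (Real.Gamma s) + Real.log (Real.Gamma t) - Real.log (Real.Gamma (s + t))
        + (Real.log s + Real.log t - Real.log (s + t)) := by
    have g1 := Real.Gamma_pos_of_pos hs
    have g2 := Real.Gamma_pos_of_pos ht
    have g3 := Real.Gamma_pos_of_pos (add_pos hs ht)
    rw [add_comm 1 s, add_comm 1 t, show s + 1 + t = (s + t) + 1 by ring,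
      Real.Gamma_add_one hs.ne', Real.Gamma_add_one ht.ne', Real.Gamma_add_one (by positivity)]
    rw [Real.log_div (by positivity) (by positivity), Real.log_mul (by positivity) (by positivity),
      Real.log_mul (by positivity) (by positivity), Real.log_mul (by positivity) (by positivity),
      Real.log_mul (by positivity) (by positivity)]
    ring
  rw [e]
  refine h4.congr fun n => ?_
  rw [lgs s hs, lgs t ht, lgs (s + t) (add_pos hs ht), Finset.sum_sub_distrib,
    Finset.sum_sub_distrib]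
  ring

/-- the term. -/
noncomputable def T (s t : ℝ) (q : ℕ × ℕ) : ℝ :=
  (-1) ^ q.2 / (q.2 + 1) * ((s + t) ^ (q.2 + 1) - s ^ (q.2 + 1) - t ^ (q.2 + 1)) *
    (1 / ((q.1 : ℝ) + 1) ^ (q.2 + 1))

theorem hasSum_T_row (s t : ℝ) (hs : 0 < s) (ht : 0 < t) (hst : s + t < 1) (m : ℕ) :
    HasSum (fun k => T s t (m, k)) (Real.log (1 + (s + t) / (m + 1))
      - Real.log (1 + s / (m + 1)) - Real.log (1 + t / (m + 1))) := by
  have key : ∀ z : ℝ, 0 < z → z < 1 →
      HasSum (fun k : ℕ => (-1) ^ k / ((k : ℝ) + 1) * z ^ (k + 1) * (1 / ((m : ℝ) + 1) ^ (k + 1)))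
        (Real.log (1 + z / (m + 1))) := by
    intro z hz0 hz1
    have hm : (0 : ℝ) ≤ m := Nat.cast_nonneg m
    have hz : |-(z / (m + 1))| < 1 := by
      rw [abs_neg, abs_of_pos (by positivity), div_lt_one (by positivity)]
      linarith
    have := (Real.hasSum_pow_div_log_of_abs_lt_one hz).neg
    rw [neg_neg, sub_neg_eq_add] at this
    refine this.congr_fun fun k => ?_
    rw [neg_pow (z / ((m : ℝ) + 1)), pow_succ (-1 : ℝ) k, div_pow]
    field_simp
  have h := ((key (s + t) (by positivity) hst).sub (key s hs (by linarith))).sub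
    (key t ht (by linarith))
  refine h.congr_fun fun k => ?_
  simp only [T]
  ring

theorem T_bound (s t : ℝ) (hs : 0 < s) (ht : 0 < t) (hst : s + t < 1) (q : ℕ × ℕ) :
    |T s t q| ≤ (1 / ((q.1 : ℝ) + 1) ^ 2) * (s + t) ^ q.2 := by
  obtain ⟨m, k⟩ := q
  simp only [T]
  have hm : (0 : ℝ) < (m : ℝ) + 1 := by positivity
  rcases Nat.eq_zero_or_pos k with hk | hk
  · subst hk
    simp
    positivity
  · have h1 : 0 ≤ (s + t) ^ (k + 1) - s ^ (k + 1) - t ^ (k + 1) := by
      have := pow_add_pow_le hs.le ht.le (n := k + 1) (by omega)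
      linarith
    have h2 : (s + t) ^ (k + 1) - s ^ (k + 1) - t ^ (k + 1) ≤ (s + t) ^ k := by
      have a1 : (s + t) ^ (k + 1) ≤ (s + t) ^ k :=
        pow_le_pow_of_le_one (by positivity) hst.le (Nat.le_succ k)
      have a2 : 0 ≤ s ^ (k + 1) := by positivity
      have a3 : 0 ≤ t ^ (k + 1) := by positivity
      linarith
    rw [abs_mul, abs_mul, abs_div, abs_pow, abs_neg, abs_one, one_pow, abs_of_nonneg h1,
      abs_of_pos (show (0 : ℝ) < (k : ℝ) + 1 by positivity),
      abs_of_pos (show (0 : ℝ) < 1 / ((m : ℝ) + 1) ^ (k + 1) by positivity)]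
    have h3 : 1 / ((m : ℝ) + 1) ^ (k + 1) ≤ 1 / ((m : ℝ) + 1) ^ 2 := by
      apply one_div_le_one_div_of_le (by positivity)
      exact pow_le_pow_right₀ (by linarith [(Nat.cast_nonneg m : (0 : ℝ) ≤ m)]) (by omega)
    have h4 : 1 / ((k : ℝ) + 1) ≤ 1 := by
      rw [div_le_one (by positivity)]
      linarith [(Nat.cast_nonneg k : (0 : ℝ) ≤ k)]
    calc 1 / ((k : ℝ) + 1) * ((s + t) ^ (k + 1) - s ^ (k + 1) - t ^ (k + 1)) *
          (1 / ((m : ℝ) + 1) ^ (k + 1))
        ≤ 1 * (s + t) ^ k * (1 / ((m : ℝ) + 1) ^ 2) := by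
          gcongr
      _ = _ := by ring

theorem summable_T (s t : ℝ) (hs : 0 < s) (ht : 0 < t) (hst : s + t < 1) : Summable (T s t) := by
  rw [← summable_abs_iff]
  refine Summable.of_nonneg_of_le (fun _ => abs_nonneg _) (T_bound s t hs ht hst) ?_
  have h1 : Summable fun m : ℕ => 1 / ((m : ℝ) + 1) ^ 2 := by
    have := (summable_nat_add_iff 1).2 (Real.summable_one_div_nat_pow.2 (one_lt_two))
    simpa using this
  have h2 : Summable fun k : ℕ => (s + t) ^ k :=
    summable_geometric_of_lt_one (by positivity) hst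
  exact h1.mul_of_nonneg h2 (fun _ => by positivity) (fun _ => by positivity)

/-- The main expansion. -/
theorem log_F_series (s t : ℝ) (hs : 0 < s) (ht : 0 < t) (hst : s + t < 1) :
    HasSum (fun k : ℕ => (-1) ^ k / ((k : ℝ) + 1) *
      ((s + t) ^ (k + 1) - s ^ (k + 1) - t ^ (k + 1)) * zt (k + 1))
      (Real.log (Real.Gamma (1 + s) * Real.Gamma (1 + t) / Real.Gamma (1 + s + t))) := by
  have hT := summable_T s t hs ht hst
  obtain ⟨a, ha⟩ := hT
  have h1 := ha.prod_fiberwise (fun m => hasSum_T_row s t hs ht hst m)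
  have h2 := h1.tendsto_sum_nat
  have h3 := tendsto_nhds_unique h2 (log_F s t hs ht)
  rw [← h3]
  have h4 : HasSum (fun q : ℕ × ℕ => T s t (q.2, q.1)) a := (Equiv.prodComm ℕ ℕ).hasSum_iff.2 ha
  have h5 : ∀ k : ℕ, HasSum (fun m => T s t (m, k)) ((-1) ^ k / ((k : ℝ) + 1) *
      ((s + t) ^ (k + 1) - s ^ (k + 1) - t ^ (k + 1)) * zt (k + 1)) := by
    intro k
    have hs := ((Equiv.prodComm ℕ ℕ).summable_iff.2 ha.summable).prod_factor k
    have e : ∑' m, T s t (m, k) = (-1) ^ k / ((k : ℝ) + 1) *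
      ((s + t) ^ (k + 1) - s ^ (k + 1) - t ^ (k + 1)) * zt (k + 1) := by
      simp only [T, zt]
      rw [tsum_mul_left]
    rw [← e]
    exact hs.hasSum
  exact h4.prod_fiberwise h5

end Gam

theorem zt_mem (k : ℕ) (hk : 2 ≤ k) : zt k ∈ zetaAlg := by
  rcases Nat.even_or_odd k with he | ho
  · obtain ⟨j, hj⟩ := he
    have hj' : k = 2 * j := by omega
    have hj0 : j ≠ 0 := by omega
    have h1 := hasSum_zeta_nat hj0
    have h2 : zt k = (-1) ^ (j + 1) * (2 : ℝ) ^ (2 * j - 1) * π ^ (2 * j) * bernoulli (2 * j) / (2 * j).factorial := by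
      rw [← h1.tsum_eq, zt, hj', h1.summable.tsum_eq_zero_add]
      have : 2 * j ≠ 0 := by omega
      simp [this]
    rw [h2]
    have h3 : (-1) ^ (j + 1) * (2 : ℝ) ^ (2 * j - 1) * π ^ (2 * j) * bernoulli (2 * j) / (2 * j).factorial
        = ((-1) ^ (j + 1) * (2 : ℚ) ^ (2 * j - 1) * bernoulli (2 * j) / (2 * j).factorial) • (π ^ 2) ^ j := by
      rw [Rat.smul_def, ← pow_mul]
      push_cast
      ring
    rw [h3]
    refine Subalgebra.smul_mem _ (Subalgebra.pow_mem _ ?_ _) _
    exact Algebra.subset_adjoin (Or.inl (by simp))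
  · refine Algebra.subset_adjoin (Or.inr ⟨k, ?_, ho, rfl⟩)
    rcases ho with ⟨r, hr⟩
    omega

theorem log2_mem : Real.log 2 ∈ zetaAlg := Algebra.subset_adjoin (Or.inl (by simp))

section Beta

theorem beta_integrable (a b : ℝ) (ha : 0 < a) (hb : 0 < b) :
    IntegrableOn (fun y : ℝ => y ^ (a - 1) * (1 - y) ^ (b - 1)) (Ioo 0 1) := by
  have h := Complex.betaIntegral_convergent (u := (a : ℂ)) (v := (b : ℂ)) (by simpa) (by simpa)
  rw [intervalIntegrable_iff_integrableOn_Ioo_of_le zero_le_one] at h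
  have h2 := h.norm
  refine h2.congr ?_
  refine (ae_restrict_iff' measurableSet_Ioo).2 (Eventually.of_forall fun y hy => ?_)
  have hy0 : 0 < y := hy.1
  have hy1 : 0 < 1 - y := by linarith [hy.2]
  simp only
  rw [norm_mul, ← Complex.ofReal_one, ← Complex.ofReal_sub, ← Complex.ofReal_sub, ← Complex.ofReal_sub,
    Complex.norm_cpow_eq_rpow_re_of_pos hy0, Complex.norm_cpow_eq_rpow_re_of_pos hy1]
  simp

theorem beta_value (a b : ℝ) (ha : 0 < a) (hb : 0 < b) :
    ∫ y in Ioo (0 : ℝ) 1, y ^ (a - 1) * (1 - y) ^ (b - 1) =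
      Real.Gamma a * Real.Gamma b / Real.Gamma (a + b) := by
  have h0 : ProbabilityTheory.beta a b = _ := ProbabilityTheory.beta_eq_betaIntegralReal a b ha hb
  rw [ProbabilityTheory.beta] at h0
  rw [h0, Complex.betaIntegral, intervalIntegral.integral_of_le zero_le_one,
    integral_Ioc_eq_integral_Ioo]
  have e : ∫ y in Ioo (0 : ℝ) 1, (y : ℂ) ^ ((a : ℂ) - 1) * (1 - (y : ℂ)) ^ ((b : ℂ) - 1) =
      ∫ y in Ioo (0 : ℝ) 1, (((y ^ (a - 1) * (1 - y) ^ (b - 1) : ℝ)) : ℂ) := by
    refine setIntegral_congr_fun measurableSet_Ioo fun y hy => ?_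
    have hy0 : 0 ≤ y := hy.1.le
    have hy1 : 0 ≤ 1 - y := by linarith [hy.2]
    rw [Complex.ofReal_mul, Complex.ofReal_cpow hy0, Complex.ofReal_cpow hy1]
    push_cast
    rfl
  rw [e]
  have e2 := integral_ofReal (𝕜 := ℂ) (μ := volume.restrict (Ioo (0 : ℝ) 1))
    (f := fun y : ℝ => y ^ (a - 1) * (1 - y) ^ (b - 1))
  have e3 := congrArg Complex.re e2
  simpa using e3.symm

end Beta

section Expand

/-- integrand of `J(j,i)` -/
noncomputable def Jf (j i : ℕ) (y : ℝ) : ℝ := Real.log y ^ j * Real.log (1 - y) ^ i / (1 - y)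

noncomputable def J (j i : ℕ) : ℝ := ∫ y in Ioo (0 : ℝ) 1, Jf j i y

theorem Jf_meas (j i : ℕ) : Measurable (Jf j i) := by
  unfold Jf
  fun_prop

/-- the key elementary bound: `(y^{-c} - 1)/(1-y) ≤ y^{-c}` -/
theorem rpow_bound (c y : ℝ) (hc : c ≤ 1) (hy : y ∈ Ioo (0 : ℝ) 1) :
    (y ^ (-c) - 1) / (1 - y) ≤ y ^ (-c) := by
  have hy0 : 0 < y := hy.1
  have hy1 : 0 < 1 - y := by linarith [hy.2]
  rw [div_le_iff₀ hy1]
  have h1 : y ≤ y ^ c := by
    have := Real.rpow_le_rpow_of_exponent_ge hy0 hy.2.le hc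
    rwa [Real.rpow_one] at this
  have h2 : y ^ (-c) * y ^ c = 1 := by
    rw [← Real.rpow_add hy0]; simp
  have h3 : 0 < y ^ (-c) := Real.rpow_pos_of_pos hy0 _
  nlinarith

theorem Jf_bound (j i : ℕ) (hj : 1 ≤ j) (y : ℝ) (hy : y ∈ Ioo (0 : ℝ) 1) :
    ‖Jf j i y‖ ≤ (j.factorial * 2 ^ j * (i.factorial * 2 ^ i)) *
      (y ^ ((1 / 2 : ℝ) - 1) * (1 - y) ^ ((1 / 2 : ℝ) - 1)) := by
  have hy0 : 0 < y := hy.1
  have hy1 : 0 < 1 - y := by linarith [hy.2]
  set u := -Real.log y with hu
  set v := -Real.log (1 - y) with hv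
  have hu0 : 0 < u := by rw [hu]; linarith [Real.log_neg hy0 hy.2]
  have hv0 : 0 < v := by rw [hv]; linarith [Real.log_neg hy1 (by linarith)]
  have e1 : ‖Jf j i y‖ = u ^ j * v ^ i / (1 - y) := by
    unfold Jf
    rw [norm_div, norm_mul, norm_pow, norm_pow, Real.norm_eq_abs, Real.norm_eq_abs, Real.norm_eq_abs,
      abs_of_pos hy1, abs_of_neg (Real.log_neg hy0 hy.2), abs_of_neg (Real.log_neg hy1 (by linarith))]
  rw [e1]
  have b1 : (u / 2) ^ j / j.factorial ≤ Real.exp (u / 2) - 1 := by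
    have h := Real.sum_le_exp_of_nonneg (show 0 ≤ u / 2 by positivity) (j + 1)
    have h2 : 1 + (u / 2) ^ j / j.factorial ≤ ∑ i ∈ Finset.range (j + 1), (u / 2) ^ i / (i.factorial : ℝ) := by
      rw [Finset.sum_range_succ]
      gcongr
      have : ∑ i ∈ Finset.range 1, (u / 2) ^ i / (i.factorial : ℝ) ≤
          ∑ i ∈ Finset.range j, (u / 2) ^ i / (i.factorial : ℝ) := by
        apply Finset.sum_le_sum_of_subset_of_nonneg
        · intro x hx
          simp only [Finset.mem_range] at hx ⊢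
          omega
        · intro k _ _
          positivity
      simpa using this
    linarith
  have b2 : (v / 2) ^ i / i.factorial ≤ Real.exp (v / 2) := Real.pow_div_factorial_le_exp _ (by positivity) i
  have e2 : Real.exp (u / 2) = y ^ (-(1 / 2) : ℝ) := by
    rw [Real.rpow_def_of_pos hy0, hu]; ring_nf
  have e3 : Real.exp (v / 2) = (1 - y) ^ (-(1 / 2) : ℝ) := by
    rw [Real.rpow_def_of_pos hy1, hv]; ring_nf
  have b3 := rpow_bound (1 / 2) y (by norm_num) hy
  rw [← e2] at b3
  have b4 : u ^ j * v ^ i / (1 - y) = (j.factorial * 2 ^ j * (i.factorial * 2 ^ i)) *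
      (((u / 2) ^ j / j.factorial) * ((v / 2) ^ i / i.factorial)) / (1 - y) := by
    rw [div_pow, div_pow]
    field_simp
  rw [b4]
  have c1 : ((1 / 2 : ℝ) - 1) = -(1 / 2) := by norm_num
  rw [c1, ← e2, ← e3, mul_div_assoc]
  refine mul_le_mul_of_nonneg_left ?_ (by positivity)
  have b5 : 0 ≤ Real.exp (u / 2) - 1 := by linarith [Real.add_one_le_exp (u / 2)]
  calc (u / 2) ^ j / ↑j.factorial * ((v / 2) ^ i / ↑i.factorial) / (1 - y)
      ≤ (Real.exp (u / 2) - 1) * Real.exp (v / 2) / (1 - y) := by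
        gcongr
    _ = (Real.exp (u / 2) - 1) / (1 - y) * Real.exp (v / 2) := by ring
    _ ≤ _ := by gcongr

theorem Jf_integrable (j i : ℕ) (hj : 1 ≤ j) : IntegrableOn (Jf j i) (Ioo 0 1) := by
  have h := (beta_integrable (1 / 2) (1 / 2) (by norm_num) (by norm_num)).const_mul
    (j.factorial * 2 ^ j * (i.factorial * 2 ^ i) : ℝ)
  refine Integrable.mono' h (Jf_meas j i).aestronglyMeasurable ?_
  exact (ae_restrict_iff' measurableSet_Ioo).2 (Eventually.of_forall fun y hy => Jf_bound j i hj y hy)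

/-- integrand of `K(m, α)` -/
noncomputable def Kf (α : ℝ) (m : ℕ) (y : ℝ) : ℝ :=
  ((α * Real.log y + Real.log (1 - y)) ^ m - Real.log (1 - y) ^ m) / (1 - y)

noncomputable def K (α : ℝ) (m : ℕ) : ℝ := ∫ y in Ioo (0 : ℝ) 1, Kf α m y

theorem Kf_eq (α : ℝ) (m : ℕ) (y : ℝ) :
    Kf α m y = ∑ j ∈ Finset.range m, (m.choose (j + 1) : ℝ) * α ^ (j + 1) * Jf (j + 1) (m - (j + 1)) y := by
  unfold Kf Jf
  rw [add_pow, Finset.sum_range_succ']
  simp only [pow_zero, Nat.sub_zero, one_mul, Nat.choose_zero_right, Nat.cast_one, mul_one,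
    add_sub_cancel_right]
  rw [Finset.sum_div]
  refine Finset.sum_congr rfl fun j _ => ?_
  rw [mul_pow]
  ring

theorem K_eq (α : ℝ) (m : ℕ) :
    K α m = ∑ j ∈ Finset.range m, (m.choose (j + 1) : ℝ) * α ^ (j + 1) * J (j + 1) (m - (j + 1)) := by
  unfold K J
  simp_rw [Kf_eq]
  rw [integral_finsetSum]
  · refine Finset.sum_congr rfl fun j _ => ?_
    rw [integral_const_mul]
  · intro j _
    exact (Jf_integrable _ _ (by omega)).const_mul _

theorem Kf_abs (α : ℝ) (hα : 0 ≤ α) (m : ℕ) (y : ℝ) (hy : y ∈ Ioo (0 : ℝ) 1) :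
    |Kf α m y| = ((α * (-Real.log y) + (-Real.log (1 - y))) ^ m - (-Real.log (1 - y)) ^ m) / (1 - y) := by
  have hy0 : 0 < y := hy.1
  have hy1 : 0 < 1 - y := by linarith [hy.2]
  have hu0 : 0 < -Real.log y := by linarith [Real.log_neg hy0 hy.2]
  have hv0 : 0 < -Real.log (1 - y) := by linarith [Real.log_neg hy1 (by linarith)]
  have e : Kf α m y = (-1) ^ m * (((α * (-Real.log y) + (-Real.log (1 - y))) ^ m
      - (-Real.log (1 - y)) ^ m) / (1 - y)) := by
    unfold Kf
    rw [show α * Real.log y + Real.log (1 - y) = -(α * (-Real.log y) + (-Real.log (1 - y))) by ring,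
      neg_pow]
    rw [show Real.log (1 - y) ^ m = (-1) ^ m * (-Real.log (1 - y)) ^ m by
      rw [← neg_pow, neg_neg]]
    ring
  rw [e, abs_mul, abs_pow, abs_neg, abs_one, one_pow, one_mul]
  apply abs_of_nonneg
  apply div_nonneg _ hy1.le
  rw [sub_nonneg]
  apply pow_le_pow_left₀ hv0.le
  have : 0 ≤ α * (-Real.log y) := by positivity
  linarith

theorem hasSum_exp_real (x : ℝ) : HasSum (fun m : ℕ => x ^ m / (m.factorial : ℝ)) (Real.exp x) := by
  have := NormedSpace.expSeries_div_hasSum_exp x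
  rwa [← Real.exp_eq_exp_ℝ] at this

theorem hasSum_K (α : ℝ) (hα : 0 ≤ α) (x : ℝ) (hx0 : 0 < x) (hx1 : x < 1) (hαx : α * x < 1) :
    HasSum (fun m : ℕ => K α m * x ^ m / m.factorial)
      (∫ y in Ioo (0 : ℝ) 1, (y ^ (α * x) * (1 - y) ^ (x - 1) - (1 - y) ^ (x - 1))) := by
  have hbs : ∀ y ∈ Ioo (0 : ℝ) 1, HasSum (fun m : ℕ => |Kf α m y * x ^ m / m.factorial|)
      ((y ^ (-(α * x)) - 1) / (1 - y) * (1 - y) ^ (-x)) := by
    intro y hy
    have hy0 : 0 < y := hy.1
    have hy1 : 0 < 1 - y := by linarith [hy.2]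
    have h1 := hasSum_exp_real ((α * (-Real.log y) + (-Real.log (1 - y))) * x)
    have h2 := hasSum_exp_real ((-Real.log (1 - y)) * x)
    have h3 := (h1.sub h2).div_const (1 - y)
    have e : (y ^ (-(α * x)) - 1) / (1 - y) * (1 - y) ^ (-x) =
        (Real.exp ((α * (-Real.log y) + (-Real.log (1 - y))) * x) - Real.exp ((-Real.log (1 - y)) * x)) / (1 - y) := by
      rw [Real.rpow_def_of_pos hy0, Real.rpow_def_of_pos hy1,
        show (α * (-Real.log y) + (-Real.log (1 - y))) * x =
          Real.log y * (-(α * x)) + Real.log (1 - y) * (-x) by ring,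
        show (-Real.log (1 - y)) * x = Real.log (1 - y) * (-x) by ring, Real.exp_add]
      ring
    rw [e]
    refine h3.congr_fun fun m => ?_
    rw [abs_div, abs_mul, Kf_abs α hα m y hy, abs_of_pos (show 0 < x ^ m by positivity),
      abs_of_pos (show (0 : ℝ) < m.factorial by positivity), mul_pow, mul_pow]
    ring
  have h := hasSum_integral_of_dominated_convergence (μ := volume.restrict (Ioo (0 : ℝ) 1))
    (F := fun m y => Kf α m y * x ^ m / m.factorial)
    (f := fun y => (y ^ (α * x) * (1 - y) ^ (x - 1) - (1 - y) ^ (x - 1)))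
    (bound := fun m y => |Kf α m y * x ^ m / m.factorial|) ?_ ?_ ?_ ?_ ?_
  · refine h.congr_fun fun m => ?_
    unfold K
    rw [integral_div, integral_mul_const]
  · intro m
    refine Measurable.aestronglyMeasurable ?_
    unfold Kf
    fun_prop
  · intro m
    exact Eventually.of_forall fun y => le_rfl
  · exact (ae_restrict_iff' measurableSet_Ioo).2 (Eventually.of_forall fun y hy => (hbs y hy).summable)
  · have hb := beta_integrable (1 - α * x) (1 - x) (by linarith) (by linarith)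
    have hg : Integrable (fun y : ℝ => (y ^ (-(α * x)) - 1) / (1 - y) * (1 - y) ^ (-x))
        (volume.restrict (Ioo (0 : ℝ) 1)) := by
      refine Integrable.mono' hb ?_ ?_
      · refine Measurable.aestronglyMeasurable ?_
        fun_prop
      · refine (ae_restrict_iff' measurableSet_Ioo).2 (Eventually.of_forall fun y hy => ?_)
        have hy0 : 0 < y := hy.1
        have hy1 : 0 < 1 - y := by linarith [hy.2]
        have b := rpow_bound (α * x) y hαx.le hy
        have b0 : 0 ≤ (y ^ (-(α * x)) - 1) / (1 - y) := by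
          apply div_nonneg _ hy1.le
          have : 1 ≤ y ^ (-(α * x)) :=
            Real.one_le_rpow_of_pos_of_le_one_of_nonpos hy0 hy.2.le (by nlinarith)
          linarith
        rw [Real.norm_eq_abs, abs_of_nonneg (by positivity)]
        rw [show 1 - α * x - 1 = -(α * x) by ring, show 1 - x - 1 = -x by ring]
        gcongr
    refine hg.congr ?_
    refine (ae_restrict_iff' measurableSet_Ioo).2 (Eventually.of_forall fun y hy => ?_)
    exact (hbs y hy).tsum_eq.symm
  · refine (ae_restrict_iff' measurableSet_Ioo).2 (Eventually.of_forall fun y hy => ?_)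
    have hy0 : 0 < y := hy.1
    have hy1 : 0 < 1 - y := by linarith [hy.2]
    have h1 := hasSum_exp_real ((α * (Real.log y) + (Real.log (1 - y))) * x)
    have h2 := hasSum_exp_real ((Real.log (1 - y)) * x)
    have h3 := (h1.sub h2).div_const (1 - y)
    have e : y ^ (α * x) * (1 - y) ^ (x - 1) - (1 - y) ^ (x - 1) =
        (Real.exp ((α * (Real.log y) + (Real.log (1 - y))) * x) - Real.exp ((Real.log (1 - y)) * x)) / (1 - y) := by
      rw [Real.rpow_sub_one hy1.ne', Real.rpow_def_of_pos hy0, Real.rpow_def_of_pos hy1,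
        show (α * (Real.log y) + (Real.log (1 - y))) * x =
          Real.log y * ((α * x)) + Real.log (1 - y) * (x) by ring, Real.exp_add]
      ring
    rw [e]
    refine h3.congr_fun fun m => ?_
    simp only [Kf]
    rw [mul_pow, mul_pow]
    ring

end Expand

section Combine

/-- the coefficients of the log. -/
noncomputable def cc (α : ℕ) : ℕ → ℝ
  | 0 => 0
  | k + 1 => (-1) ^ k / ((k : ℝ) + 1) * (((α : ℝ) + 1) ^ (k + 1) - (α : ℝ) ^ (k + 1) - 1) * zt (k + 1)

/-- the coefficients of the Beta function. -/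
noncomputable def pp (α : ℕ) : ℕ → ℝ
  | 0 => 1
  | m + 1 => K α m / m.factorial

theorem cc_mem (α : ℕ) (m : ℕ) : cc α m ∈ zetaAlg := by
  rcases m with _ | k
  · exact zetaAlg.zero_mem
  · rcases Nat.eq_zero_or_pos k with hk | hk
    · subst hk
      simp [cc]
    · have e : cc α (k + 1) = ((-1) ^ k / ((k : ℚ) + 1) *
        (((α : ℚ) + 1) ^ (k + 1) - (α : ℚ) ^ (k + 1) - 1)) • zt (k + 1) := by
        rw [Rat.smul_def]
        push_cast
        rfl
      rw [e]
      exact zetaAlg.smul_mem (zt_mem _ (by omega)) _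

theorem K_mem (α : ℕ) (hα : 1 ≤ α) (m : ℕ) : K α m ∈ zetaAlg := by
  have hα' : (1 : ℝ) ≤ α := by exact_mod_cast hα
  have hc : ∀ x : ℝ, 0 < x → x < 1 / ((α : ℝ) + 1) → HasSum (fun m => cc α m * x ^ m)
      (Real.log (Real.Gamma (1 + α * x) * Real.Gamma (1 + x) / Real.Gamma (1 + α * x + x))) := by
    intro x hx0 hx1
    rw [lt_div_iff₀ (by positivity)] at hx1
    have h := log_F_series (α * x) x (by positivity) hx0 (by linarith)
    rw [← hasSum_nat_add_iff' 1]
    simp only [Finset.range_one, Finset.sum_singleton, cc, zero_mul, sub_zero]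
    refine h.congr_fun fun k => ?_
    rw [show α * x + x = (α + 1) * x by ring, mul_pow, mul_pow]
    ring
  have hF : ∀ x : ℝ, 0 < x → 0 < Real.Gamma (1 + α * x) * Real.Gamma (1 + x) / Real.Gamma (1 + α * x + x) := by
    intro x hx
    have g1 := Real.Gamma_pos_of_pos (show 0 < 1 + α * x by positivity)
    have g2 := Real.Gamma_pos_of_pos (show 0 < 1 + x by positivity)
    have g3 := Real.Gamma_pos_of_pos (show 0 < 1 + α * x + x by positivity)
    positivity
  have hp : ∀ x : ℝ, 0 < x → x < 1 / ((α : ℝ) + 1) → HasSum (fun m => pp α m * x ^ m)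
      (Real.Gamma (1 + α * x) * Real.Gamma (1 + x) / Real.Gamma (1 + α * x + x)) := by
    intro x hx0 hx1
    rw [lt_div_iff₀ (by positivity)] at hx1
    have hx : x < 1 := by nlinarith
    have hax : α * x < 1 := by nlinarith
    have h := (hasSum_K α (by positivity) x hx0 hx hax).mul_left x
    have v1 := beta_value (1 + α * x) x (by positivity) hx0
    have v2 := beta_value 1 x one_pos hx0
    have i1 := beta_integrable (1 + α * x) x (by positivity) hx0
    have i2 := beta_integrable 1 x one_pos hx0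
    simp only [add_sub_cancel_left, sub_self, Real.rpow_zero, one_mul, Real.Gamma_one] at v1 v2 i1 i2
    have e : x * (∫ y in Ioo (0 : ℝ) 1, (y ^ (α * x) * (1 - y) ^ (x - 1) - (1 - y) ^ (x - 1))) =
        Real.Gamma (1 + α * x) * Real.Gamma (1 + x) / Real.Gamma (1 + α * x + x) - 1 := by
      rw [integral_sub i1 i2, v1, v2, mul_sub]
      have g1 := Real.Gamma_add_one hx0.ne'
      have g2 := Real.Gamma_pos_of_pos hx0
      rw [add_comm 1 x, g1]
      field_simp
    rw [e] at h
    rw [← hasSum_nat_add_iff' 1]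
    simp only [Finset.range_one, Finset.sum_singleton, pp, pow_zero, mul_one]
    refine h.congr_fun fun k => ?_
    ring
  have hm := coeff_mem zetaAlg (pp α) (cc α) (1 / ((α : ℝ) + 1)) (by positivity)
    (fun x hx0 hx1 => (hp x hx0 hx1).summable) (fun x hx0 hx1 => (hc x hx0 hx1).summable)
    (fun x hx0 hx1 => by
      rw [(hp x hx0 hx1).tsum_eq, (hc x hx0 hx1).tsum_eq, Real.exp_log (hF x hx0)])
    (cc_mem α) rfl (m + 1)
  have e : K α m = (m.factorial : ℝ) * pp α (m + 1) := by
    simp only [pp]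
    field_simp
  rw [e]
  exact zetaAlg.mul_mem (Subalgebra.natCast_mem _ _) hm

theorem extract (A : Submodule ℚ ℝ) (m : ℕ) (c : ℕ → ℝ)
    (h : ∀ α : ℕ, 1 ≤ α → ∑ j ∈ Finset.range m, (α : ℝ) ^ (j + 1) * c j ∈ A) (j : ℕ) (hj : j < m) :
    c j ∈ A := by
  by_contra hc
  obtain ⟨f, hf, hA⟩ := Submodule.exists_le_ker_of_notMem hc
  set q : Polynomial ℚ := ∑ j ∈ Finset.range m, Polynomial.monomial (j + 1) (f (c j)) with hq
  have hroot : ∀ α : ℕ, 1 ≤ α → q.IsRoot (α : ℚ) := by
    intro α hα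
    have h1 := hA (h α hα)
    rw [LinearMap.mem_ker, map_sum] at h1
    rw [Polynomial.IsRoot.def, hq, Polynomial.eval_finsetSum]
    rw [← h1]
    refine Finset.sum_congr rfl fun j _ => ?_
    rw [Polynomial.eval_monomial]
    have : ((α : ℝ) ^ (j + 1) * c j) = ((α : ℚ) ^ (j + 1)) • c j := by
      rw [Rat.smul_def]; push_cast; rfl
    rw [this, map_smul, smul_eq_mul]
    ring
  have hq0 : q = 0 := by
    apply Polynomial.eq_zero_of_infinite_isRoot
    have : Set.Infinite (Set.range fun α : ℕ => ((α + 1 : ℕ) : ℚ)) :=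
      Set.infinite_range_of_injective (fun a b h => by simpa using h)
    refine this.mono ?_
    rintro _ ⟨α, rfl⟩
    exact hroot (α + 1) (by omega)
  have h2 : q.coeff (j + 1) = f (c j) := by
    rw [hq, Polynomial.finsetSum_coeff]
    rw [Finset.sum_eq_single j]
    · simp
    · intro b _ hb
      rw [Polynomial.coeff_monomial, if_neg]
      omega
    · intro h
      exact absurd (Finset.mem_range.2 hj) h
  rw [hq0] at h2
  exact hf h2.symm

theorem J_mem (j i : ℕ) (hj : 1 ≤ j) : J j i ∈ zetaAlg := by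
  obtain ⟨j, rfl⟩ : ∃ j', j = j' + 1 := ⟨j - 1, by omega⟩
  have h := extract (Subalgebra.toSubmodule zetaAlg) (j + 1 + i)
    (fun l => ((j + 1 + i).choose (l + 1) : ℝ) * J (l + 1) (j + 1 + i - (l + 1))) ?_ j (by omega)
  · simp only [Subalgebra.mem_toSubmodule] at h
    have e1 : j + 1 + i - (j + 1) = i := by omega
    rw [e1] at h
    have hpos : (0 : ℝ) < ((j + 1 + i).choose (j + 1) : ℝ) := by
      exact_mod_cast Nat.choose_pos (by omega)
    have e2 : J (j + 1) i = (((j + 1 + i).choose (j + 1) : ℚ)⁻¹) •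
        (((j + 1 + i).choose (j + 1) : ℝ) * J (j + 1) i) := by
      rw [Rat.smul_def]
      push_cast
      field_simp
    rw [e2]
    exact zetaAlg.smul_mem h _
  · intro α hα
    have := K_mem α hα (j + 1 + i)
    rw [K_eq] at this
    rw [Subalgebra.mem_toSubmodule]
    convert this using 2
    ring

end Combine
section Reduce

open intervalIntegral in
/-- `G` -/
noncomputable def G (n : ℕ) (y : ℝ) : ℝ :=
  Real.log (2 * y) ^ (n + 1) * Real.log (2 * (1 - y)) ^ n / (1 - y)

/-- `R` -/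
noncomputable def R (n : ℕ) (y : ℝ) : ℝ :=
  Real.log 2 ^ (n + 1) * Real.log (2 * (1 - y)) ^ n / (1 - y)

theorem H_eq (n : ℕ) (y : ℝ) (hy : y ∈ Ioo (0 : ℝ) 1) : G n y - R n y =
    ∑ j ∈ Finset.range (n + 1), ∑ i ∈ Finset.range (n + 1),
      (((n + 1).choose (j + 1) : ℝ) * Real.log 2 ^ (n + 1 - (j + 1)) *
        ((n.choose i : ℝ) * Real.log 2 ^ (n - i))) * Jf (j + 1) i y := by
  have hy0 : 0 < y := hy.1
  have hy1 : 0 < 1 - y := by linarith [hy.2]
  unfold G R Jf
  rw [Real.log_mul two_ne_zero hy0.ne', Real.log_mul two_ne_zero hy1.ne']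
  have e1 : (Real.log 2 + Real.log y) ^ (n + 1) - Real.log 2 ^ (n + 1) =
      ∑ j ∈ Finset.range (n + 1), Real.log y ^ (j + 1) * Real.log 2 ^ (n + 1 - (j + 1)) *
        ((n + 1).choose (j + 1) : ℝ) := by
    rw [add_comm, add_pow, Finset.sum_range_succ']
    simp
  have e2 : (Real.log 2 + Real.log (1 - y)) ^ n =
      ∑ i ∈ Finset.range (n + 1), Real.log (1 - y) ^ i * Real.log 2 ^ (n - i) * (n.choose i : ℝ) := by
    rw [add_comm, add_pow]
  have e3 : (Real.log 2 + Real.log y) ^ (n + 1) * (Real.log 2 + Real.log (1 - y)) ^ n / (1 - y) -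
      Real.log 2 ^ (n + 1) * (Real.log 2 + Real.log (1 - y)) ^ n / (1 - y) =
      ((Real.log 2 + Real.log y) ^ (n + 1) - Real.log 2 ^ (n + 1)) *
        (Real.log 2 + Real.log (1 - y)) ^ n / (1 - y) := by ring
  rw [e3, e1, e2, Finset.sum_mul_sum, Finset.sum_div]
  refine Finset.sum_congr rfl fun j _ => ?_
  rw [Finset.sum_div]
  refine Finset.sum_congr rfl fun i _ => ?_
  ring

theorem H_int (n : ℕ) : IntervalIntegrable (fun y => G n y - R n y) volume 0 1 := by
  rw [intervalIntegrable_iff_integrableOn_Ioo_of_le zero_le_one]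
  have h : IntegrableOn (fun y => ∑ j ∈ Finset.range (n + 1), ∑ i ∈ Finset.range (n + 1),
      (((n + 1).choose (j + 1) : ℝ) * Real.log 2 ^ (n + 1 - (j + 1)) *
        ((n.choose i : ℝ) * Real.log 2 ^ (n - i))) * Jf (j + 1) i y) (Ioo 0 1) := by
    refine integrable_finsetSum _ fun j _ => integrable_finsetSum _ fun i _ => ?_
    exact (Jf_integrable (j + 1) i (by omega)).const_mul _
  refine h.congr_fun (fun y hy => ?_) measurableSet_Ioo
  exact (H_eq n y hy).symm

theorem H_mem (n : ℕ) : (∫ y in (0 : ℝ)..1, (G n y - R n y)) ∈ zetaAlg := by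
  rw [intervalIntegral.integral_of_le zero_le_one, integral_Ioc_eq_integral_Ioo,
    setIntegral_congr_fun measurableSet_Ioo (fun y hy => H_eq n y hy), integral_finsetSum]
  · refine Subalgebra.sum_mem _ fun j _ => ?_
    rw [integral_finsetSum]
    · refine Subalgebra.sum_mem _ fun i _ => ?_
      rw [integral_const_mul]
      have h := J_mem (j + 1) i (by omega)
      unfold J at h
      refine zetaAlg.mul_mem (zetaAlg.mul_mem (zetaAlg.mul_mem (Subalgebra.natCast_mem _ _) ?_)
        (zetaAlg.mul_mem (Subalgebra.natCast_mem _ _) ?_)) h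
      · exact zetaAlg.pow_mem log2_mem _
      · exact zetaAlg.pow_mem log2_mem _
    · intro i _
      exact (Jf_integrable (j + 1) i (by omega)).const_mul _
  · intro j _
    refine integrable_finsetSum _ fun i _ => ?_
    exact (Jf_integrable (j + 1) i (by omega)).const_mul _

theorem R_hasDeriv (n : ℕ) (y : ℝ) (hy : y < 1) :
    HasDerivAt (fun y => -(Real.log 2 ^ (n + 1) * Real.log (2 * (1 - y)) ^ (n + 1) / (n + 1))) (R n y) y := by
  have hy1 : 0 < 1 - y := by linarith
  have h1 : HasDerivAt (fun y : ℝ => 2 * (1 - y)) (2 * (0 - 1)) y :=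
    ((hasDerivAt_const y (1 : ℝ)).sub (hasDerivAt_id y)).const_mul 2
  have h2 := (h1.log (by positivity)).pow (n + 1)
  have h3 := ((h2.const_mul (Real.log 2 ^ (n + 1))).div_const ((n : ℝ) + 1)).neg
  refine h3.congr_deriv ?_
  unfold R
  simp only [add_tsub_cancel_right]
  push_cast
  field_simp
  ring

theorem R_int (n : ℕ) : IntervalIntegrable (R n) volume 0 (1 / 2) := by
  apply ContinuousOn.intervalIntegrable
  rw [uIcc_of_le (by norm_num)]
  intro y hy
  have hy1 : 0 < 1 - y := by linarith [hy.2]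
  apply ContinuousAt.continuousWithinAt
  unfold R
  refine ContinuousAt.div ?_ (by fun_prop) hy1.ne'
  refine ContinuousAt.mul (by fun_prop) ?_
  refine ContinuousAt.pow ?_ n
  exact ContinuousAt.log (by fun_prop) (by positivity)

theorem R_value (n : ℕ) : ∫ y in (0 : ℝ)..(1 / 2), R n y = Real.log 2 ^ (2 * n + 2) / (n + 1) := by
  rw [intervalIntegral.integral_eq_sub_of_hasDerivAt (f := fun y => -(Real.log 2 ^ (n + 1) * Real.log (2 * (1 - y)) ^ (n + 1) / (n + 1)))]
  · norm_num
    ring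
  · intro y hy
    rw [uIcc_of_le (by norm_num)] at hy
    exact R_hasDeriv n y (by linarith [hy.2])
  · exact R_int n

theorem G_int (n : ℕ) : IntervalIntegrable (G n) volume 0 (1 / 2) := by
  have h1 : IntervalIntegrable (fun y => G n y - R n y) volume 0 (1 / 2) := by
    refine (H_int n).mono_set ?_
    rw [uIcc_of_le (by norm_num), uIcc_of_le (by norm_num)]
    exact Icc_subset_Icc_right (by norm_num)
  have := h1.add (R_int n)
  refine this.congr ?_
  intro y _
  simp

theorem orig_int (n : ℕ) : IntervalIntegrable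
    (fun x : ℝ => Real.log (1 - x) ^ (n + 1) * Real.log (1 + x) ^ n / (1 + x)) volume 0 1 := by
  have h1 := ((G_int n).comp_mul_left (c := (1 / 2 : ℝ))).comp_sub_left 1
  have h2 := (h1.const_mul (1 / 2)).symm
  norm_num at h2
  refine h2.congr ?_
  intro x _
  simp only [G]
  have e1 : 2 * (1 / 2 * (1 - x)) = 1 - x := by ring
  have e2 : 2 * (1 - 1 / 2 * (1 - x)) = 1 + x := by ring
  have e3 : 1 - 1 / 2 * (1 - x) = (1 + x) / 2 := by ring
  rw [e1, e2, e3]
  rcases eq_or_ne (1 + x) 0 with h | h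
  · rw [h]; simp
  · field_simp

theorem orig_value (n : ℕ) :
    ∫ x in (0 : ℝ)..1, Real.log (1 - x) ^ (n + 1) * Real.log (1 + x) ^ n / (1 + x) =
      ∫ y in (0 : ℝ)..(1 / 2), G n y := by
  have h := intervalIntegral.integral_comp_sub_mul (a := 0) (b := 1 / 2)
    (fun x : ℝ => Real.log (1 - x) ^ (n + 1) * Real.log (1 + x) ^ n / (1 + x)) (two_ne_zero) 1
  norm_num at h
  have h2 : ∫ y in (0 : ℝ)..(1 / 2), G n y =
      2 * ∫ y in (0 : ℝ)..(1 / 2), Real.log (2 * y) ^ (n + 1) * Real.log (1 + (1 - 2 * y)) ^ n / (1 + (1 - 2 * y)) := by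
    rw [← intervalIntegral.integral_const_mul]
    refine intervalIntegral.integral_congr fun y hy => ?_
    rw [uIcc_of_le (by norm_num)] at hy
    have hy1 : 0 < 1 - y := by linarith [hy.2]
    simp only [G]
    rw [show 1 + (1 - 2 * y) = 2 * (1 - y) by ring]
    field_simp
  rw [h2, h]
  ring

end Reduce

section IBP

/-- the primitive -/
noncomputable def Phi (n : ℕ) (y : ℝ) : ℝ :=
  (Real.log (2 * y) ^ (n + 1) - Real.log 2 ^ (n + 1)) * Real.log (2 * (1 - y)) ^ (n + 1) / (n + 1)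

theorem Phi_deriv (n : ℕ) (y : ℝ) (hy0 : 0 < y) (hy1 : y < 1) :
    HasDerivAt (Phi n) (G n (1 - y) - (G n y - R n y)) y := by
  have hy1' : 0 < 1 - y := by linarith
  have h1 : HasDerivAt (fun y : ℝ => 2 * (1 - y)) (2 * (0 - 1)) y :=
    ((hasDerivAt_const y (1 : ℝ)).sub (hasDerivAt_id y)).const_mul 2
  have h2 := (h1.log (by positivity)).pow (n + 1)
  have h3 : HasDerivAt (fun y : ℝ => 2 * y) (2 * 1) y := (hasDerivAt_id y).const_mul 2
  have h4 := ((h3.log (by positivity)).pow (n + 1)).sub_const (Real.log 2 ^ (n + 1))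
  have h5 := (h4.mul h2).div_const ((n : ℝ) + 1)
  refine h5.congr_deriv ?_
  unfold G R
  simp only [add_tsub_cancel_right, sub_sub_cancel, Pi.pow_apply]
  push_cast
  field_simp
  ring

theorem tendsto_pow (n : ℕ) : Tendsto (fun x : ℝ => x * Real.log x ^ (n + 1)) (𝓝[>] 0) (𝓝 0) := by
  have h := (tendsto_log_mul_rpow_nhdsGT_zero (r := 1 / ((n : ℝ) + 1)) (by positivity)).pow (n + 1)
  rw [zero_pow (by omega)] at h
  refine h.congr' ?_
  filter_upwards [self_mem_nhdsWithin] with x hx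
  have hx' : (0 : ℝ) < x := hx
  rw [mul_pow, ← Real.rpow_natCast (x ^ (1 / ((n : ℝ) + 1))), ← Real.rpow_mul hx'.le]
  push_cast
  rw [one_div, inv_mul_cancel₀ (by positivity), Real.rpow_one]
  ring

theorem Phi_tendsto_one (n : ℕ) : Tendsto (Phi n) (𝓝[<] 1) (𝓝 0) := by
  -- the polynomial factor
  set P : ℝ → ℝ := fun y => ∑ i ∈ Finset.range (n + 1),
    (Real.log (2 * y)) ^ i * Real.log 2 ^ (n + 1 - 1 - i) with hP
  have hPc : ContinuousAt P 1 := by
    rw [hP]
    refine tendsto_finsetSum _ fun i _ => ?_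
    refine ContinuousAt.mul (ContinuousAt.pow ?_ i) continuousAt_const
    exact ContinuousAt.log (by fun_prop) (by norm_num)
  have hbound : ∀ᶠ y in 𝓝[<] (1 : ℝ), ‖Phi n y‖ ≤
      |P y| * |(2 * (1 - y)) * Real.log (2 * (1 - y)) ^ (n + 1)| := by
    have : Ioo (1 / 2 : ℝ) 1 ∈ 𝓝[<] (1 : ℝ) := Ioo_mem_nhdsLT (by norm_num)
    filter_upwards [this] with y hy
    have hy0 : 0 < y := by linarith [hy.1]
    have hy1 : 0 < 1 - y := by linarith [hy.2]
    have e : Real.log (2 * y) ^ (n + 1) - Real.log 2 ^ (n + 1) = P y * Real.log y := by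
      have := (Commute.all (Real.log (2 * y)) (Real.log 2)).geom_sum₂_mul (n + 1)
      rw [← this, hP, show Real.log (2 * y) - Real.log 2 = Real.log y by
        rw [Real.log_mul two_ne_zero hy0.ne']; ring]
    have hl : |Real.log y| ≤ 2 * (1 - y) := by
      rw [abs_of_neg (Real.log_neg hy0 hy.2)]
      have h1 := Real.one_sub_inv_le_log_of_pos hy0
      have h2 : y⁻¹ - 1 ≤ 2 * (1 - y) := by
        rw [inv_eq_one_div, div_sub_one hy0.ne', div_le_iff₀ hy0]
        nlinarith [hy.1]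
      linarith
    unfold Phi
    rw [e, norm_div, norm_mul, norm_mul, Real.norm_eq_abs, Real.norm_eq_abs, Real.norm_eq_abs,
      Real.norm_eq_abs, abs_of_pos (show (0 : ℝ) < (n : ℝ) + 1 by positivity), abs_mul (2 * (1 - y)),
      abs_of_pos (show 0 < 2 * (1 - y) by positivity), ← mul_assoc]
    have hn : (1 : ℝ) ≤ (n : ℝ) + 1 := by linarith [(Nat.cast_nonneg n : (0 : ℝ) ≤ n)]
    calc |P y| * |Real.log y| * |Real.log (2 * (1 - y)) ^ (n + 1)| / ((n : ℝ) + 1)
        ≤ |P y| * |Real.log y| * |Real.log (2 * (1 - y)) ^ (n + 1)| :=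
          div_le_self (by positivity) hn
      _ ≤ _ := by gcongr
  refine squeeze_zero_norm' hbound ?_
  have h1 : Tendsto (fun y : ℝ => 2 * (1 - y)) (𝓝[<] 1) (𝓝[>] 0) := by
    refine tendsto_nhdsWithin_iff.2 ⟨?_, ?_⟩
    · have : ContinuousAt (fun y : ℝ => 2 * (1 - y)) 1 := by fun_prop
      have h := this.tendsto
      norm_num at h
      exact h.mono_left nhdsWithin_le_nhds
    · filter_upwards [self_mem_nhdsWithin] with y hy
      have : y < 1 := hy
      show (0 : ℝ) < 2 * (1 - y)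
      linarith
  have h2 := ((tendsto_pow n).comp h1).abs
  have h3 : Tendsto (fun y => |P y|) (𝓝[<] 1) (𝓝 |P 1|) :=
    (hPc.abs.tendsto).mono_left nhdsWithin_le_nhds
  have h4 := h3.mul h2
  rw [abs_zero, mul_zero] at h4
  exact h4

theorem G_int' (n : ℕ) : IntervalIntegrable (fun y => G n (1 - y)) volume (1 / 2) 1 := by
  have h := ((G_int n).comp_sub_left 1).symm
  norm_num at h
  exact h

theorem HR_int (n : ℕ) : IntervalIntegrable (fun y => G n y - R n y) volume (1 / 2) 1 := by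
  refine (H_int n).mono_set ?_
  rw [uIcc_of_le (by norm_num), uIcc_of_le (by norm_num)]
  exact Icc_subset_Icc_left (by norm_num)

theorem HL_int (n : ℕ) : IntervalIntegrable (fun y => G n y - R n y) volume 0 (1 / 2) := by
  refine (H_int n).mono_set ?_
  rw [uIcc_of_le (by norm_num), uIcc_of_le (by norm_num)]
  exact Icc_subset_Icc_right (by norm_num)

theorem ibp (n : ℕ) : ∫ y in (1 / 2 : ℝ)..1, (G n (1 - y) - (G n y - R n y)) = 0 := by
  rw [intervalIntegral.integral_eq_sub_of_hasDerivAt_of_tendsto (f := Phi n) (fa := 0) (fb := 0)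
    (by norm_num)]
  · simp
  · intro y hy
    exact Phi_deriv n y (by linarith [hy.1]) hy.2
  · exact (G_int' n).sub (HR_int n)
  · have h := (Phi_deriv n (1 / 2) (by norm_num) (by norm_num)).continuousAt.tendsto
    have e : Phi n (1 / 2) = 0 := by
      unfold Phi
      norm_num
    rw [e] at h
    exact h.mono_left nhdsWithin_le_nhds
  · exact Phi_tendsto_one n

theorem two_I (n : ℕ) : 2 * (∫ y in (0 : ℝ)..(1 / 2), G n y) =
    (∫ y in (0 : ℝ)..1, (G n y - R n y)) + Real.log 2 ^ (2 * n + 2) / (n + 1) := by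
  have h1 := ibp n
  rw [intervalIntegral.integral_sub (G_int' n) (HR_int n)] at h1
  have h2 : ∫ y in (1 / 2 : ℝ)..1, G n (1 - y) = ∫ y in (0 : ℝ)..(1 / 2), G n y := by
    rw [intervalIntegral.integral_comp_sub_left (a := 1 / 2) (b := 1) (G n) 1]
    norm_num
  have h3 := intervalIntegral.integral_add_adjacent_intervals (HL_int n) (HR_int n)
  have h4 : ∫ y in (0 : ℝ)..(1 / 2), (G n y - R n y) =
      (∫ y in (0 : ℝ)..(1 / 2), G n y) - ∫ y in (0 : ℝ)..(1 / 2), R n y :=
    intervalIntegral.integral_sub (G_int n) (R_int n)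
  rw [R_value] at h4
  rw [h2] at h1
  linarith

end IBP

/-- For every `n ≥ 1` the integral `I_n` converges and lies in the `ℚ`-algebra generated by
`π²`, `log 2` and the odd zeta values. -/
theorem result (n : ℕ) (_hn : 1 ≤ n) :
    IntervalIntegrable
      (fun x : ℝ => Real.log (1 - x) ^ (n + 1) * Real.log (1 + x) ^ n / (1 + x)) volume 0 1 ∧
    (∫ x in (0 : ℝ)..1, Real.log (1 - x) ^ (n + 1) * Real.log (1 + x) ^ n / (1 + x)) ∈
      Algebra.adjoin ℚ ({π ^ 2, Real.log 2} ∪
        {z : ℝ | ∃ k : ℕ, 3 ≤ k ∧ Odd k ∧ z = ∑' m : ℕ, 1 / ((m : ℝ) + 1) ^ k}) := by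
  refine ⟨orig_int n, ?_⟩
  rw [orig_value]
  show _ ∈ zetaAlg
  have h := two_I n
  have e : (∫ y in (0 : ℝ)..(1 / 2), G n y) = (1 / 2 : ℚ) •
      ((∫ y in (0 : ℝ)..1, (G n y - R n y)) + (1 / ((n : ℚ) + 1)) • Real.log 2 ^ (2 * n + 2)) := by
    rw [Rat.smul_def, Rat.smul_def]
    push_cast
    have : Real.log 2 ^ (2 * n + 2) / ((n : ℝ) + 1) = 1 / ((n : ℝ) + 1) * Real.log 2 ^ (2 * n + 2) := by
      ring
    rw [← this]
    linarith
  rw [e]
  exact zetaAlg.smul_mem (zetaAlg.add_mem (H_mem n) (zetaAlg.smul_mem (zetaAlg.pow_mem log2_mem _) _)) _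

end Pool.Agent.Results.MP_cd3f56_nt.LogIntegral
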